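import Pool.Agent.Helper70.GB.Types

/-!
# MP_02f2ca_gt : module A6 (avoidance of affine families, measure of affine preimages)
-/

open Set MeasureTheory Filter Topology

namespace GB

private lemma avoid_one (N : ℝ) (hN : 0 < N) (s q : ℝ) (hs : s ≠ 0)
    (t₀ lam : ℝ) (hlam : 0 < lam) (hslope : N * |s| * lam ≤ 1) :
    ∃ t₁, t₀ ≤ t₁ ∧ t₁ + lam / 4 ≤ t₀ + lam ∧
      ∀ t ∈ Icc t₁ (t₁ + lam / 4), ∀ u : ℤ,
        N * |s| * lam / 8 ≤ |N * (s * t + q) - u| := by
  have hspos : 0 < |s| := abs_pos.mpr hs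
  have hpos : 0 < N * |s| * lam := by positivity
  -- key: a good centre
  have key : ∃ c, (c = t₀ + lam / 4 ∨ c = t₀ + 3 * lam / 4) ∧
      ∀ u : ℤ, N * |s| * lam / 4 ≤ |N * (s * c + q) - u| := by
    by_contra hcon
    push Not at hcon
    obtain ⟨u, hu⟩ := hcon (t₀ + lam / 4) (Or.inl rfl)
    obtain ⟨v, hv⟩ := hcon (t₀ + 3 * lam / 4) (Or.inr rfl)
    set x := N * (s * (t₀ + lam / 4) + q) - u
    set y := N * (s * (t₀ + 3 * lam / 4) + q) - v
    have hxy : y - x = N * s * lam / 2 - ((v - u : ℤ) : ℝ) := by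
      simp only [x, y]; push_cast; ring
    have h1 : |y - x| < N * |s| * lam / 2 := by
      calc |y - x| ≤ |y| + |x| := abs_sub _ _
        _ < N * |s| * lam / 4 + N * |s| * lam / 4 := by
            have := hu
            have := hv
            linarith
        _ = N * |s| * lam / 2 := by ring
    rw [hxy] at h1
    have habs : |N * s * lam / 2| = N * |s| * lam / 2 := by
      rw [abs_div, abs_mul, abs_mul, abs_of_pos hN, abs_of_pos hlam]
      norm_num
    by_cases hz : (v - u : ℤ) = 0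
    · rw [hz] at h1
      simp only [Int.cast_zero, sub_zero] at h1
      rw [habs] at h1
      exact lt_irrefl _ h1
    · have hone : (1 : ℝ) ≤ |((v - u : ℤ) : ℝ)| := by
        have : (1 : ℤ) ≤ |v - u| := Int.one_le_abs hz
        calc (1 : ℝ) = ((1 : ℤ) : ℝ) := by norm_num
          _ ≤ ((|v - u| : ℤ) : ℝ) := by exact_mod_cast this
          _ = |((v - u : ℤ) : ℝ)| := by push_cast; rfl
      have h2 : |((v - u : ℤ) : ℝ)| ≤ |N * s * lam / 2 - ((v - u : ℤ) : ℝ)| + |N * s * lam / 2| := by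
        have := abs_sub_abs_le_abs_sub ((v - u : ℤ) : ℝ) (N * s * lam / 2)
        rw [abs_sub_comm] at this
        linarith
      rw [habs] at h2
      linarith
  obtain ⟨c, hc, hgood⟩ := key
  refine ⟨c - lam / 8, ?_, ?_, ?_⟩
  · rcases hc with rfl | rfl <;> linarith
  · rcases hc with rfl | rfl <;> linarith
  · intro t ht u
    have h1 := hgood u
    have h2 : |N * s * (t - c)| ≤ N * |s| * lam / 8 := by
      rw [abs_mul, abs_mul, abs_of_pos hN]
      have : |t - c| ≤ lam / 8 := by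
        rw [abs_le]; constructor <;> linarith [ht.1, ht.2]
      calc N * |s| * |t - c| ≤ N * |s| * (lam / 8) :=
            mul_le_mul_of_nonneg_left this (by positivity)
        _ = N * |s| * lam / 8 := by ring
    have h3 : |N * (s * c + q) - u| ≤ |N * (s * t + q) - u| + |N * s * (t - c)| := by
      have : N * (s * c + q) - u = (N * (s * t + q) - u) - N * s * (t - c) := by ring
      rw [this]
      exact abs_sub _ _
    linarith

theorem avoid_family (n : ℕ) (N : ℝ) (hN : 0 < N) (s q : Fin n → ℝ) (hs : ∀ i, s i ≠ 0)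
    (t₀ lam : ℝ) (hlam : 0 < lam) (hslope : ∀ i, N * |s i| * lam ≤ 1) :
    ∃ t₁, t₀ ≤ t₁ ∧ t₁ + lam / 4 ^ n ≤ t₀ + lam ∧
      ∀ i, ∀ t ∈ Icc t₁ (t₁ + lam / 4 ^ n), ∀ u : ℤ,
        N * |s i| * lam / (8 * 4 ^ n) ≤ |N * (s i * t + q i) - u| := by
  induction n generalizing t₀ lam with
  | zero =>
    refine ⟨t₀, le_rfl, by simp, fun i => i.elim0⟩
  | succ n ih =>
    obtain ⟨t₁, h1, h2, h3⟩ := avoid_one N hN (s 0) (q 0) (hs 0) t₀ lam hlam (hslope 0)
    obtain ⟨t₂, g1, g2, g3⟩ := ih (fun i => s i.succ) (fun i => q i.succ) (fun i => hs i.succ)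
      t₁ (lam / 4) (by positivity) (fun i => by
        have := hslope i.succ
        have h4 : N * |s i.succ| * (lam / 4) ≤ N * |s i.succ| * lam := by
          apply mul_le_mul_of_nonneg_left _ (by positivity)
          linarith
        linarith)
    have hpow : lam / 4 / 4 ^ n = lam / 4 ^ (n + 1) := by
      rw [pow_succ]; field_simp
    rw [hpow] at g2 g3
    refine ⟨t₂, h1.trans g1, by linarith, ?_⟩
    intro i
    refine Fin.cases ?_ ?_ i
    · intro t ht u
      have htt : t ∈ Icc t₁ (t₁ + lam / 4) := ⟨g1.trans ht.1, ht.2.trans g2⟩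
      have h4 := h3 t htt u
      refine le_trans ?_ h4
      have : N * |s 0| * lam / (8 * 4 ^ (n + 1)) ≤ N * |s 0| * lam / 8 := by
        apply div_le_div_of_nonneg_left (by positivity) (by norm_num)
        have : (1 : ℝ) ≤ 4 ^ (n + 1) := one_le_pow₀ (by norm_num)
        linarith
      exact this
    · intro j t ht u
      have h4 := g3 j t ht u
      refine le_trans (le_of_eq ?_) h4
      rw [pow_succ]
      field_simp

theorem volume_affine_le (W : Set ℝ) (hW : MeasurableSet W) (hper : Per W) (s q a δ : ℝ)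
    (hs : s ≠ 0) (hδ : 0 ≤ δ) (h : |s| * δ ≤ 1) :
    volume {t | t ∈ Icc a (a + δ) ∧ s * t + q ∈ W} ≤
      ENNReal.ofReal (1 / |s|) * volume (W ∩ Icc 0 1) := by
  -- lower endpoint of the image interval
  obtain ⟨y, hy⟩ : ∃ y : ℝ, ∀ t ∈ Icc a (a + δ), s * t + q ∈ Icc y (y + 1) := by
    rcases lt_or_gt_of_ne hs with hneg | hpos
    · refine ⟨s * (a + δ) + q, fun t ht => ⟨?_, ?_⟩⟩
      · have := mul_le_mul_of_nonpos_left ht.2 hneg.le
        linarith
      · have := mul_le_mul_of_nonpos_left ht.1 hneg.le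
        rw [abs_of_neg hneg] at h
        nlinarith
    · refine ⟨s * a + q, fun t ht => ⟨?_, ?_⟩⟩
      · have := mul_le_mul_of_nonneg_left ht.1 hpos.le
        linarith
      · have := mul_le_mul_of_nonneg_left ht.2 hpos.le
        rw [abs_of_pos hpos] at h
        nlinarith
  have hinv : ∀ (k : ℤ) (x : ℝ), x + k ∈ W ↔ x ∈ W := by
    intro k
    induction k using Int.induction_on with
    | zero => intro x; simp
    | succ n ih =>
      intro x
      push_cast at ih ⊢
      rw [← add_assoc, hper, ih]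
    | pred n ih =>
      intro x
      push_cast at ih ⊢
      rw [← ih x, ← hper (x + (-(n : ℝ) - 1))]
      congr! 1
      ring
  -- periodicity of the measure
  have hperm : volume (W ∩ Ioc y (y + 1)) = volume (W ∩ Ioc (0 : ℝ) (0 + 1)) := by
    have f1 := isAddFundamentalDomain_Ioc (zero_lt_one (α := ℝ)) y (μ := volume)
    have f2 := isAddFundamentalDomain_Ioc (zero_lt_one (α := ℝ)) 0 (μ := volume)
    refine f1.measure_set_eq f2 hW ?_
    intro g
    ext x
    obtain ⟨k, hk⟩ := AddSubgroup.mem_zmultiples_iff.mp g.2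
    have hg : (g : ℝ) = (k : ℝ) := by rw [← hk]; simp
    simp only [mem_preimage]
    have : g +ᵥ x = x + (k : ℝ) := by
      rw [AddSubgroup.vadd_def, hg, vadd_eq_add, add_comm]
    rw [this, hinv]
  have hIcc : volume (W ∩ Icc y (y + 1)) ≤ volume (W ∩ Icc 0 1) := by
    have e1 : volume (W ∩ Icc y (y + 1)) ≤ volume (W ∩ Ioc y (y + 1)) + volume ({y} : Set ℝ) := by
      refine le_trans (measure_mono ?_) (measure_union_le _ _)
      rintro x ⟨hx, hx1, hx2⟩
      rcases eq_or_lt_of_le hx1 with h0 | h0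
      · right; exact h0.symm
      · left; exact ⟨hx, h0, hx2⟩
    rw [Real.volume_singleton, add_zero, hperm, zero_add] at e1
    exact e1.trans (measure_mono (inter_subset_inter_right _ Ioc_subset_Icc_self))
  have hsub : {t | t ∈ Icc a (a + δ) ∧ s * t + q ∈ W} ⊆
      (fun t => s * t) ⁻¹' ((fun x => x + q) ⁻¹' (W ∩ Icc y (y + 1))) := by
    rintro t ⟨ht, htW⟩
    exact ⟨htW, hy t ht⟩
  refine (measure_mono hsub).trans ?_
  rw [Real.volume_preimage_mul_left hs, measure_preimage_add_right]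
  rw [show |s⁻¹| = 1 / |s| by rw [abs_inv, one_div]]
  exact mul_le_mul_right hIcc _

/-- Nested intervals (uses `avoid_family`). -/
theorem Vd_nested (K b j₀ : ℕ) (hK : 1 ≤ K) (hb : 8 * K * 4 ^ K < b) (k : ℕ) (hk : k ≤ K)
    (s q : Fin k → ℝ) (hs : ∀ l, 1 / (K : ℝ) ≤ |s l| ∧ |s l| ≤ 1) (t₀ : ℝ) (J : ℕ) (hJ : j₀ ≤ J) :
    ∃ t₁, t₀ ≤ t₁ ∧ t₁ + 1 / (b : ℝ) ^ J ≤ t₀ + 1 / (b : ℝ) ^ j₀ ∧
      ∀ t ∈ Icc t₁ (t₁ + 1 / (b : ℝ) ^ J), ∀ l, s l * t + q l ∈ Vd b j₀ J := by
  have hKpos : (0 : ℝ) < K := by exact_mod_cast hK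
  have hbR : (8 : ℝ) * K * 4 ^ K < b := by exact_mod_cast hb
  have hbpos : (0 : ℝ) < b := lt_of_le_of_lt (by positivity) hbR
  have h4 : (4 : ℝ) ^ k ≤ 4 ^ K := pow_le_pow_right₀ (by norm_num) hk
  have h4b : (4 : ℝ) ^ k ≤ b := by
    have h1K : (1 : ℝ) ≤ K := by exact_mod_cast hK
    have : (4 : ℝ) ^ K ≤ 8 * K * 4 ^ K := by
      have : (1 : ℝ) ≤ 8 * K := by linarith
      nlinarith [pow_pos (show (0 : ℝ) < 4 by norm_num) K]
    linarith
  induction J, hJ using Nat.le_induction with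
  | base =>
    refine ⟨t₀, le_rfl, le_rfl, ?_⟩
    intro t _ l j h1 h2
    omega
  | succ J hJ ih =>
    obtain ⟨t₁, h1, h2, h3⟩ := ih
    have hbJ : (0 : ℝ) < (b : ℝ) ^ J := by positivity
    obtain ⟨t₂, g1, g2, g3⟩ := avoid_family k ((b : ℝ) ^ J) hbJ s q
      (fun i => by
        have := (hs i).1
        have h0 : (0 : ℝ) < 1 / K := by positivity
        intro h
        rw [h, abs_zero] at this
        linarith)
      t₁ (1 / (b : ℝ) ^ J) (by positivity)
      (fun i => by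
        have : (b : ℝ) ^ J * |s i| * (1 / (b : ℝ) ^ J) = |s i| := by field_simp
        rw [this]
        exact (hs i).2)
    have hlen : 1 / (b : ℝ) ^ (J + 1) ≤ 1 / (b : ℝ) ^ J / 4 ^ k := by
      rw [pow_succ, div_div]
      apply one_div_le_one_div_of_le (by positivity)
      exact mul_le_mul_of_nonneg_left h4b hbJ.le
    refine ⟨t₂, h1.trans g1, by linarith, ?_⟩
    intro t ht l j hj0 hj u
    have htt : t ∈ Icc t₂ (t₂ + 1 / (b : ℝ) ^ J / 4 ^ k) := ⟨ht.1, by linarith [ht.2]⟩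
    rcases Nat.lt_succ_iff_lt_or_eq.mp hj with hlt | heq
    · exact h3 t ⟨g1.trans ht.1, by linarith [ht.2]⟩ l j hj0 hlt u
    · rw [heq]
      have h5 := g3 l t htt u
      refine lt_of_lt_of_le ?_ h5
      have h6 : (b : ℝ) ^ J * |s l| * (1 / (b : ℝ) ^ J) = |s l| := by field_simp
      rw [h6]
      have h7 : 1 / (b : ℝ) < 1 / (8 * K * 4 ^ K) :=
        one_div_lt_one_div_of_lt (by positivity) hbR
      refine lt_of_lt_of_le h7 ?_
      rw [show (1 : ℝ) / (8 * K * 4 ^ K) = (1 / K) / (8 * 4 ^ K) by field_simp]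
      calc (1 / (K : ℝ)) / (8 * 4 ^ K) ≤ |s l| / (8 * 4 ^ K) := by
            apply div_le_div_of_nonneg_right (hs l).1 (by positivity)
        _ ≤ |s l| / (8 * 4 ^ k) := by
            apply div_le_div_of_nonneg_left (abs_nonneg _) (by positivity)
            linarith

end GB
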