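import Pool.Agent.Helper70.GB.Types

/-!
# MP_02f2ca_gt : module A7 (digit sets)
-/

open Set MeasureTheory Filter Topology

namespace GB

private lemma lt_norm_iff (c y : ℝ) :
    (∀ u : ℤ, c < |y - u|) ↔ c < ‖(y : UnitAddCircle)‖ := by
  rw [UnitAddCircle.norm_eq]
  constructor
  · intro h; exact h (round y)
  · intro h u; exact lt_of_lt_of_le h (round_le y u)

private lemma mem_Vd (b j₀ J : ℕ) (x : ℝ) :
    x ∈ Vd b j₀ J ↔ ∀ j, j₀ ≤ j → j < J → 1 / (b : ℝ) < ‖(((b : ℝ) ^ j * x : ℝ) : UnitAddCircle)‖ := by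
  constructor
  · intro h j h1 h2
    exact (lt_norm_iff _ _).mp (h j h1 h2)
  · intro h j h1 h2
    exact (lt_norm_iff _ _).mpr (h j h1 h2)

private lemma cont_norm (b j : ℕ) :
    Continuous fun x : ℝ => ‖(((b : ℝ) ^ j * x : ℝ) : UnitAddCircle)‖ := by
  have h1 : Continuous fun x : ℝ => (((b : ℝ) ^ j * x : ℝ) : UnitAddCircle) :=
    (AddCircle.continuous_mk' 1).comp (continuous_const.mul continuous_id)
  exact h1.norm

theorem Vd_isOpen (b j₀ J : ℕ) : IsOpen (Vd b j₀ J) := by
  have : Vd b j₀ J = ⋂ j ∈ Finset.Ico j₀ J,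
      {x : ℝ | 1 / (b : ℝ) < ‖(((b : ℝ) ^ j * x : ℝ) : UnitAddCircle)‖} := by
    ext x
    rw [mem_Vd]
    simp only [mem_iInter, Finset.mem_Ico, Set.mem_ofPred_eq]
    constructor
    · intro h j hj; exact h j hj.1 hj.2
    · intro h j h1 h2; exact h j ⟨h1, h2⟩
  rw [this]
  exact isOpen_biInter_finset fun j _ => isOpen_lt continuous_const (cont_norm b j)

theorem Vd_per (b j₀ J : ℕ) : Per (Vd b j₀ J) := by
  intro x
  rw [mem_Vd, mem_Vd]
  have : ∀ j : ℕ, (((b : ℝ) ^ j * (x + 1) : ℝ) : UnitAddCircle) =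
      (((b : ℝ) ^ j * x : ℝ) : UnitAddCircle) := by
    intro j
    rw [mul_add, mul_one, AddCircle.coe_add]
    have h : (((b : ℝ) ^ j : ℝ) : UnitAddCircle) = 0 := by
      rw [AddCircle.coe_eq_zero_iff]
      exact ⟨((b ^ j : ℕ) : ℤ), by simp⟩
    rw [h, add_zero]
  simp only [this]

private lemma closure_Vd_sub (b j₀ J : ℕ) (x : ℝ) (hx : x ∈ closure (Vd b j₀ J)) (j : ℕ)
    (h1 : j₀ ≤ j) (h2 : j < J) : 1 / (b : ℝ) ≤ ‖(((b : ℝ) ^ j * x : ℝ) : UnitAddCircle)‖ := by
  have hcl : IsClosed {x : ℝ | 1 / (b : ℝ) ≤ ‖(((b : ℝ) ^ j * x : ℝ) : UnitAddCircle)‖} :=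
    isClosed_le continuous_const (cont_norm b j)
  exact closure_minimal (fun y hy => ((mem_Vd b j₀ J y).mp hy j h1 h2).le) hcl hx

theorem Vd_closure (b j₀ J : ℕ) (hb : 2 ≤ b) : closure (Vd b j₀ (J + 1)) ⊆ Vd b j₀ J := by
  intro x hx
  rw [mem_Vd]
  intro j h1 h2
  have hbpos : (0 : ℝ) < b := by
    have : (2 : ℝ) ≤ b := by exact_mod_cast hb
    linarith
  rcases lt_or_eq_of_le (closure_Vd_sub b j₀ (J + 1) x hx j h1 (by omega)) with h | h
  · exact h
  · exfalso
    have h3 := closure_Vd_sub b j₀ (J + 1) x hx (j + 1) (by omega) (by omega)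
    rw [UnitAddCircle.norm_eq] at h
    set y := (b : ℝ) ^ j * x with hy
    have h4 : (b : ℝ) ^ (j + 1) * x = b * y := by rw [hy, pow_succ]; ring
    rw [h4] at h3
    have h5 : ((b * y : ℝ) : UnitAddCircle) = 0 := by
      rw [AddCircle.coe_eq_zero_iff]
      rcases abs_choice (y - round y) with h6 | h6
      · refine ⟨b * round y + 1, ?_⟩
        rw [h6] at h
        have : y = round y + 1 / b := by linarith
        rw [zsmul_eq_mul, mul_one]
        push_cast
        nth_rewrite 2 [this]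
        field_simp
      · refine ⟨b * round y - 1, ?_⟩
        rw [h6] at h
        have : y = round y - 1 / b := by linarith
        rw [zsmul_eq_mul, mul_one]
        push_cast
        nth_rewrite 2 [this]
        field_simp
    rw [h5, norm_zero] at h3
    have : 0 < 1 / (b : ℝ) := by positivity
    linarith

theorem Vd_frontier (b j₀ J : ℕ) (hb : 2 ≤ b) : volume (frontier (Vd b j₀ J)) = 0 := by
  have hbpos : (0 : ℝ) < b := by
    have : (2 : ℝ) ≤ b := by exact_mod_cast hb
    linarith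
  have hcount : (⋃ j : ℕ, ⋃ u : ℤ, ({(u + 1 / (b : ℝ)) / (b : ℝ) ^ j,
      (u - 1 / (b : ℝ)) / (b : ℝ) ^ j} : Set ℝ)).Countable := by
    refine countable_iUnion fun j => countable_iUnion fun u => ?_
    exact (Set.toFinite _).countable
  refine measure_mono_null ?_ (hcount.measure_zero volume)
  intro x hx
  rw [(Vd_isOpen b j₀ J).frontier_eq] at hx
  obtain ⟨hx1, hx2⟩ := hx
  rw [mem_Vd] at hx2
  push Not at hx2
  obtain ⟨j, h1, h2, h3⟩ := hx2
  have h4 := closure_Vd_sub b j₀ J x hx1 j h1 h2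
  have h5 := le_antisymm h3 h4
  rw [UnitAddCircle.norm_eq] at h5
  have hbj : (0 : ℝ) < (b : ℝ) ^ j := by positivity
  simp only [mem_iUnion, mem_insert_iff, mem_singleton_iff]
  refine ⟨j, round ((b : ℝ) ^ j * x), ?_⟩
  rcases abs_choice ((b : ℝ) ^ j * x - round ((b : ℝ) ^ j * x)) with h6 | h6
  · left
    rw [eq_div_iff hbj.ne']
    rw [h6] at h5
    linarith
  · right
    rw [eq_div_iff hbj.ne']
    rw [h6] at h5
    linarith

theorem Vd_frontier_closure (b j₀ J : ℕ) (hb : 2 ≤ b) :
    volume (frontier (closure (Vd b j₀ J))) = 0 :=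
  measure_mono_null frontier_closure_subset (Vd_frontier b j₀ J hb)

/-- The set of points of the circle all of whose iterates avoid a ball around `0` is null. -/
private lemma circle_null (b : ℕ) (hb : 2 ≤ b) (c : ℝ) (hc : 0 < c) :
    volume {y : UnitAddCircle | ∀ j : ℕ, c < ‖(b ^ j) • y‖} = 0 := by
  set A := {y : UnitAddCircle | ∀ j : ℕ, c < ‖(b ^ j) • y‖} with hA
  have hmeas : MeasurableSet A := by
    have : A = ⋂ j : ℕ, {y : UnitAddCircle | c < ‖(b ^ j) • y‖} := by
      ext y; simp [hA]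
    rw [this]
    refine MeasurableSet.iInter fun j => ?_
    exact (isOpen_lt continuous_const (continuous_const_smul (b ^ j)).norm).measurableSet
  have herg : Ergodic fun y : UnitAddCircle => b • y := AddCircle.ergodic_nsmul (by omega)
  have hsub : A ⊆ (fun y : UnitAddCircle => b • y) ⁻¹' A := by
    intro y hy j
    have := hy (j + 1)
    rwa [pow_succ, mul_smul] at this
  rcases herg.ae_empty_or_univ_of_ae_le_preimage hmeas.nullMeasurableSet
    (LE.le.eventuallyLE hsub) with h | h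
  · rw [measure_congr h, measure_empty]
  · exfalso
    have h1 : volume (Aᶜ) = 0 := by
      rw [← ae_eq_univ]; exact h
    have h2 : Metric.closedBall (0 : UnitAddCircle) c ⊆ Aᶜ := by
      intro y hy hyA
      have := hyA 0
      rw [pow_zero, one_smul] at this
      rw [Metric.mem_closedBall, dist_zero_right] at hy
      linarith
    have h3 := measure_mono_null h2 h1
    rw [AddCircle.volume_closedBall] at h3
    have : (0 : ℝ) < min 1 (2 * c) := lt_min one_pos (by linarith)
    rw [ENNReal.ofReal_eq_zero] at h3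
    linarith

theorem Vd_tendsto (b j₀ : ℕ) (hb : 3 ≤ b) :
    Tendsto (fun J => volume (Vd b j₀ J ∩ Icc 0 1)) atTop (𝓝 0) := by
  have hbpos : (0 : ℝ) < b := by
    have : (3 : ℝ) ≤ b := by exact_mod_cast hb
    linarith
  -- transfer to the circle
  set C : ℕ → Set UnitAddCircle := fun J =>
    {y | ∀ j, j₀ ≤ j → j < J → 1 / (b : ℝ) < ‖(b ^ j) • y‖} with hC
  have hCmeas : ∀ J, MeasurableSet (C J) := by
    intro J
    have : C J = ⋂ j ∈ Finset.Ico j₀ J, {y : UnitAddCircle | 1 / (b : ℝ) < ‖(b ^ j) • y‖} := by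
      ext y
      simp only [hC, mem_iInter, Finset.mem_Ico, Set.mem_ofPred_eq]
      constructor
      · intro h j hj; exact h j hj.1 hj.2
      · intro h j h1 h2; exact h j ⟨h1, h2⟩
    rw [this]
    exact (isOpen_biInter_finset fun j _ =>
      isOpen_lt continuous_const (continuous_const_smul (b ^ j)).norm).measurableSet
  have hpre : ∀ J, Vd b j₀ J = ((↑) : ℝ → UnitAddCircle) ⁻¹' C J := by
    intro J
    ext x
    rw [mem_Vd]
    simp only [hC, mem_preimage, Set.mem_ofPred_eq]
    have : ∀ j : ℕ, (((b : ℝ) ^ j * x : ℝ) : UnitAddCircle) = (b ^ j) • (x : UnitAddCircle) := by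
      intro j
      rw [← AddCircle.coe_nsmul]
      congr 1
      rw [nsmul_eq_mul]
      push_cast
      ring
    simp only [this]
  have hbound : ∀ J, volume (Vd b j₀ J ∩ Icc 0 1) ≤ volume (C J) := by
    intro J
    have e1 : volume (Vd b j₀ J ∩ Icc 0 1) ≤
        volume (Vd b j₀ J ∩ Ioc 0 (0 + 1)) + volume ({0} : Set ℝ) := by
      refine le_trans (measure_mono ?_) (measure_union_le _ _)
      rintro x ⟨hx, hx1, hx2⟩
      rcases eq_or_lt_of_le hx1 with h0 | h0
      · right; exact h0.symm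
      · left; exact ⟨hx, h0, by simpa using hx2⟩
    rw [Real.volume_singleton, add_zero] at e1
    refine e1.trans (le_of_eq ?_)
    rw [hpre]
    exact (AddCircle.add_projection_respects_measure 1 0 (hCmeas J)).symm
  have hlim : Tendsto (fun J => volume (C J)) atTop (𝓝 (volume (⋂ J, C J))) := by
    apply tendsto_measure_iInter_atTop
    · exact fun J => (hCmeas J).nullMeasurableSet
    · intro J J' hJJ' y hy j h1 h2
      exact hy j h1 (lt_of_lt_of_le h2 hJJ')
    · exact ⟨0, measure_ne_top _ _⟩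
  have hzero : volume (⋂ J, C J) = 0 := by
    have hsub : (⋂ J, C J) ⊆ (fun y : UnitAddCircle => (b ^ j₀) • y) ⁻¹'
        {y : UnitAddCircle | ∀ j : ℕ, 1 / (b : ℝ) < ‖(b ^ j) • y‖} := by
      intro y hy j
      rw [mem_iInter] at hy
      have := hy (j₀ + j + 1) (j₀ + j) (by omega) (by omega)
      rwa [pow_add, mul_comm, mul_smul] at this
    refine measure_mono_null hsub ?_
    have hmp : Measure.QuasiMeasurePreserving (fun y : UnitAddCircle => (b ^ j₀) • y) volume volume := by
      rcases Nat.eq_zero_or_pos j₀ with h0 | h0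
      · subst h0
        have h1 : (fun y : UnitAddCircle => (b ^ 0) • y) = id := by
          funext y; simp
        rw [h1]
        exact Measure.QuasiMeasurePreserving.id (volume : Measure UnitAddCircle)
      · have : 1 < b ^ j₀ := Nat.one_lt_pow (by omega) (by omega)
        exact (AddCircle.ergodic_nsmul (T := 1) this).toMeasurePreserving.quasiMeasurePreserving
    exact hmp.preimage_null (circle_null b (by omega) _ (by positivity))
  rw [hzero] at hlim
  exact tendsto_of_tendsto_of_tendsto_of_le_of_le tendsto_const_nhds hlim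
    (fun _ => zero_le) hbound

theorem Vd_grid (b j₀ J : ℕ) (hb : 2 ≤ b) (hJ : j₀ < J) (m : ℤ) :
    (m : ℝ) / ((b ^ j₀ : ℕ) : ℝ) ∉ Vd b j₀ J := by
  intro h
  have hbpos : (0 : ℝ) < b := by
    have : (2 : ℝ) ≤ b := by exact_mod_cast hb
    linarith
  have h1 := h j₀ le_rfl hJ m
  have h2 : (b : ℝ) ^ j₀ * ((m : ℝ) / ((b ^ j₀ : ℕ) : ℝ)) - m = 0 := by
    push_cast
    field_simp
    ring
  rw [h2, abs_zero] at h1
  have : 0 < 1 / (b : ℝ) := by positivity
  linarith

end GB
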